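import Mathlib
import Pool.Agent.X238.Shf.Main

set_option autoImplicit false

/-!
# Inclusion of a regular language in the shuffle of a regular and a `DCM(1,1)` language

The regular languages are fixed: `L = Σ^*` and `L₁ = {λ, a}`. The reduction is from the Post
correspondence problem with fixed pairs `(g i, h i)` and an input word `x`: is there `is` with
`x h(is) = g(is)`? A word codes `y` and the indices: the tokens of `x y` (type `g`) interleaved with
those of `y` (type `h`), each token preceded by the letter `a`, then `#` and the indices in the
reverse order. The machine rejects the words in this format, and the words in this format with
exactly one missing letter `a` if the token without `a` agrees with the word defined by the indices: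
it counts the tokens of the same type behind it, and counts down while it reads the indices. Hence a
word of the complete format is missing in `{λ, a} ⧢ L₂` iff all its tokens are correct.
-/

namespace Pool.Agent.Results.MP_732884_lc.ShuffleInclusionUndecidable

open Pool.Agent.X238.Shf

/-- There are a finite alphabet `Fin k` and a letter `a` of it such that no algorithm decides, given
a deterministic one-counter machine with a one-reversal counter (with the promise that the machine
is of this kind), whether the regular language of all words is included in the shuffle of the
regular language `{λ, a}` and the language of the machine. -/
theorem result : ∃ (k : ℕ) (a : Fin k), (⊤ : Language (Fin k)).IsRegular ∧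
    Language.IsRegular ({[], [a]} : Language (Fin k)) ∧
    ¬ ∃ f : Mach → Bool, Computable f ∧ ∀ M, OneReversal k M →
      (f M = true ↔ (⊤ : Language (Fin k)) ≤ Sh {[], [a]} (Lang k M)) :=
  main_le

end Pool.Agent.Results.MP_732884_lc.ShuffleInclusionUndecidable
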